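import Pool.Agent.U461.WMP.Part2

/-!
# No weak*-null normalized sequences
-/

set_option autoImplicit false
open Filter Topology Set
open scoped ENNReal

namespace Pool.Agent.U461.WMP

variable {𝕜 : Type*} [RCLike 𝕜] {E : Type*} [NormedAddCommGroup E] [NormedSpace 𝕜 E]

/-- the tolerances -/
noncomputable def dl (k : ℕ) : ℝ := (1 / 2) ^ (k + 4)

lemma dl_pos (k : ℕ) : 0 < dl k := by unfold dl; positivity

lemma dl_anti {j k : ℕ} (h : j ≤ k) : dl k ≤ dl j := by
  unfold dl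
  exact pow_le_pow_of_le_one (by norm_num) (by norm_num) (by omega)

lemma sum_dl (K : ℕ) : ∑ j ∈ Finset.range K, dl j ≤ 1 / 8 := by
  have h1 : ∑ j ∈ Finset.range K, dl j = (1 / 16) * ∑ j ∈ Finset.range K, (1 / 2 : ℝ) ^ j := by
    rw [Finset.mul_sum]
    refine Finset.sum_congr rfl fun j _ => ?_
    unfold dl
    rw [pow_add]; ring
  have h2 := sum_geometric_two_le K
  rw [h1]; linarith

/-- one step of the selection -/
lemma step (hW : HasWMP 𝕜 E (Linf 𝕜)) (g : ℕ → E →L[𝕜] 𝕜) (hg : ∀ n, ‖g n‖ = 1)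
    (hg0 : ∀ x, Tendsto (fun n => g n x) atTop (𝓝 0)) (x : ℕ → E) (hx : WeaklyNull 𝕜 x)
    (s : Finset ℕ) (hs : ‖∑ i ∈ s, g i‖ < 2) :
    ∃ n : ℕ, 1 ≤ n ∧ (∀ i ∈ s, i < n) ∧ ‖∑ i ∈ s, g i + g n‖ < 2 ∧
      ∀ i ∈ s, ‖g n (x i)‖ ≤ dl s.card ∧ ‖g i (x n)‖ ≤ dl s.card := by
  have h1 := lemmaB hW g hg hg0 (∑ i ∈ s, g i) 2 (by norm_num) hs
  have h2 : ∀ᶠ n in atTop, ∀ i ∈ s, ‖g n (x i)‖ ≤ dl s.card := by
    rw [Finset.eventually_all]
    intro i _
    have := (hg0 (x i)).norm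
    rw [norm_zero] at this
    exact this.eventually (ge_mem_nhds (dl_pos _))
  have h3 : ∀ᶠ n in atTop, ∀ i ∈ s, ‖g i (x n)‖ ≤ dl s.card := by
    rw [Finset.eventually_all]
    intro i _
    have := (hx (g i)).norm
    rw [norm_zero] at this
    exact this.eventually (ge_mem_nhds (dl_pos _))
  have h4 : ∀ᶠ n in atTop, ∀ i ∈ s, i < n := by
    rw [Finset.eventually_all]
    intro i _
    exact eventually_gt_atTop i
  obtain ⟨n, hn1, hn2, hn3, hn4, hn5⟩ :=
    (h1.and (h2.and (h3.and (h4.and (eventually_ge_atTop 1))))).exists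
  exact ⟨n, hn5, hn4, hn1, fun i hi => ⟨hn2 i hi, hn3 i hi⟩⟩

/-- the selection -/
lemma select (hW : HasWMP 𝕜 E (Linf 𝕜)) (g : ℕ → E →L[𝕜] 𝕜) (hg : ∀ n, ‖g n‖ = 1)
    (hg0 : ∀ x, Tendsto (fun n => g n x) atTop (𝓝 0)) (x : ℕ → E) (hx : WeaklyNull 𝕜 x) :
    ∃ φ : ℕ → ℕ, StrictMono φ ∧ (∀ k, 1 ≤ φ k) ∧
      (∀ k, ‖∑ i ∈ Finset.range k, g (φ i)‖ < 2) ∧
      ∀ j k, j < k → ‖g (φ k) (x (φ j))‖ ≤ dl k ∧ ‖g (φ j) (x (φ k))‖ ≤ dl k := by
  classical
  choose! N hN1 hN2 hN3 hN4 using step hW g hg hg0 x hx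
  let S : ℕ → Finset ℕ := fun k => Nat.rec ∅ (fun _ s => insert (N s) s) k
  have hS0 : S 0 = ∅ := rfl
  have hSs : ∀ k, S (k + 1) = insert (N (S k)) (S k) := fun k => rfl
  have hinv : ∀ k, ‖∑ i ∈ S k, g i‖ < 2 := by
    intro k
    induction k with
    | zero => rw [hS0]; simp
    | succ k ih =>
      rw [hSs, Finset.sum_insert (fun h => (lt_irrefl _ (hN2 _ ih _ h))), add_comm]
      exact hN3 _ ih
  have hnot : ∀ k, N (S k) ∉ S k := fun k h => lt_irrefl _ (hN2 _ (hinv k) _ h)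
  have hcard : ∀ k, (S k).card = k := by
    intro k
    induction k with
    | zero => rw [hS0]; simp
    | succ k ih => rw [hSs, Finset.card_insert_of_notMem (hnot k), ih]
  have hmem : ∀ j k, j < k → N (S j) ∈ S k := by
    intro j k hjk
    induction k with
    | zero => omega
    | succ k ih =>
      rw [hSs]
      rcases Nat.lt_succ_iff_lt_or_eq.1 hjk with h | h
      · exact Finset.mem_insert_of_mem (ih h)
      · rw [h]; exact Finset.mem_insert_self _ _
  have hsum : ∀ k, ∑ i ∈ Finset.range k, g (N (S i)) = ∑ i ∈ S k, g i := by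
    intro k
    induction k with
    | zero => rw [hS0]; simp
    | succ k ih => rw [Finset.sum_range_succ, ih, hSs, Finset.sum_insert (hnot k), add_comm]
  refine ⟨fun k => N (S k), ?_, fun k => hN1 _ (hinv k), fun k => ?_, fun j k hjk => ?_⟩
  · exact strictMono_nat_of_lt_succ fun k => hN2 _ (hinv (k + 1)) _ (hmem k (k + 1) (Nat.lt_succ_self k))
  · rw [hsum]; exact hinv k
  · have := hN4 _ (hinv k) _ (hmem j k hjk)
    rwa [hcard] at this

/-- the contradiction -/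
theorem no_null (hW : HasWMP 𝕜 E (Linf 𝕜)) (g : ℕ → E →L[𝕜] 𝕜) (hg : ∀ n, ‖g n‖ = 1)
    (hg0 : ∀ x, Tendsto (fun n => g n x) atTop (𝓝 0)) : False := by
  classical
  let _ : NormedSpace ℝ E := NormedSpace.restrictScalars ℝ 𝕜 E
  have _ : IsScalarTower ℝ 𝕜 E := inferInstance
  obtain ⟨x, hx1, hx2, hx3⟩ := lemmaC hW g hg hg0
  obtain ⟨φ, hφ, hφ1, hφ2, hφ3⟩ := select hW g hg hg0 x hx3
  -- lower bound of the partial sums
  have hlow : ∀ i K, i < K → 3 / 8 ≤ RCLike.re ((∑ j ∈ Finset.range K, g (φ j)) (x (φ i))) := by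
    intro i K hiK
    have h1 : (∑ j ∈ Finset.range K, g (φ j)) (x (φ i)) =
        ∑ j ∈ Finset.range K, g (φ j) (x (φ i)) := by
      simp only [FunLike.coe_sum, Finset.sum_apply]
    rw [h1, ← Finset.add_sum_erase _ _ (Finset.mem_range.2 hiK), map_add]
    have h2 : 1 / 2 ≤ RCLike.re (g (φ i) (x (φ i))) := by
      have h3 := (hx2 (φ i)).le
      have h4 : 1 / ((φ i : ℝ) + 1) ≤ 1 / 2 := by
        apply one_div_le_one_div_of_le (by norm_num)
        have : (1 : ℝ) ≤ φ i := by exact_mod_cast hφ1 i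
        linarith
      linarith
    have h5 : ‖∑ j ∈ (Finset.range K).erase i, g (φ j) (x (φ i))‖ ≤ 1 / 8 := by
      refine (norm_sum_le _ _).trans ?_
      refine le_trans (Finset.sum_le_sum (g := fun j => dl j) ?_) ?_
      · intro j hj
        rw [Finset.mem_erase, Finset.mem_range] at hj
        rcases lt_or_gt_of_ne hj.1 with h | h
        · exact ((hφ3 j i h).2).trans (dl_anti h.le)
        · exact (hφ3 i j h).1
      · refine le_trans ?_ (sum_dl K)
        exact Finset.sum_le_sum_of_subset_of_nonneg (Finset.erase_subset _ _)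
          fun j _ _ => (dl_pos j).le
    have h6 := (abs_le.1 ((RCLike.abs_re_le_norm
      (∑ j ∈ (Finset.range K).erase i, g (φ j) (x (φ i)))).trans h5)).1
    linarith
  -- Mazur
  have hmaz : (0 : E) ∈ closure (convexHull ℝ (Set.range fun i => x (φ i))) := by
    by_contra hno
    obtain ⟨f, u, hu1, hu2⟩ := RCLike.geometric_hahn_banach_point_closed (𝕜 := 𝕜)
      (convex_convexHull ℝ (Set.range fun i => x (φ i))).closure isClosed_closure hno
    rw [map_zero, map_zero] at hu1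
    have h1 : ∀ i, u < RCLike.re (f (x (φ i))) := fun i =>
      hu2 _ (subset_closure (subset_convexHull ℝ _ ⟨i, rfl⟩))
    have h2 : Tendsto (fun i => RCLike.re (f (x (φ i)))) atTop (𝓝 0) := by
      have h3 := (hx3 f).comp hφ.tendsto_atTop
      have h4 := (RCLike.continuous_re.tendsto (0 : 𝕜)).comp h3
      rw [map_zero] at h4
      exact h4
    have h3 := ge_of_tendsto' h2 fun i => (h1 i).le
    linarith
  obtain ⟨z, hz1, hz2⟩ := Metric.mem_closure_iff.1 hmaz (1 / 16) (by norm_num)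
  -- the convex set
  have hz3 : z ∈ {y : E | ∃ K : ℕ, ∀ k ≥ K,
      3 / 8 ≤ RCLike.re ((∑ j ∈ Finset.range k, g (φ j)) y)} := by
    refine convexHull_min ?_ ?_ hz1
    · rintro _ ⟨i, rfl⟩
      exact ⟨i + 1, fun k hk => hlow i k (by omega)⟩
    · rintro a ⟨Ka, hKa⟩ b ⟨Kb, hKb⟩ p q hp hq hpq
      refine ⟨max Ka Kb, fun k hk => ?_⟩
      have h1 := hKa k (le_trans (le_max_left _ _) hk)
      have h2 := hKb k (le_trans (le_max_right _ _) hk)
      have h3 : RCLike.re ((∑ j ∈ Finset.range k, g (φ j)) (p • a + q • b)) =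
          p * RCLike.re ((∑ j ∈ Finset.range k, g (φ j)) a) +
          q * RCLike.re ((∑ j ∈ Finset.range k, g (φ j)) b) := by
        rw [map_add, ← algebraMap_smul 𝕜 p a, ← algebraMap_smul 𝕜 q b, map_smul, map_smul,
          map_add]
        simp
      rw [h3]
      nlinarith
  obtain ⟨K, hK⟩ := hz3
  have h1 := hK K le_rfl
  have h2 : ‖(∑ j ∈ Finset.range K, g (φ j)) z‖ ≤ 2 * ‖z‖ :=
    ContinuousLinearMap.le_of_opNorm_le _ (hφ2 K).le z
  have h3 := RCLike.re_le_norm ((∑ j ∈ Finset.range K, g (φ j)) z)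
  rw [dist_zero_left] at hz2
  linarith

end Pool.Agent.U461.WMP
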