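import Pool.Agent.U461.WMP.James2
import Pool.Agent.U461.WMP.Part3

/-!
# Domain spaces with the weak maximizing property for all ranges are finite dimensional
-/

set_option autoImplicit false
open Filter Topology Set
open scoped ENNReal

namespace Pool.Agent.U461.WMP.Final

open Pool.Agent.U461.WMP

variable {𝕜 : Type} [RCLike 𝕜]

/-- the non-reflexive case: some norm one functional does not attain its norm -/
lemma nonreflexive {E : Type*} [NormedAddCommGroup E] [NormedSpace 𝕜 E] [NormedSpace ℝ E]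
    [IsScalarTower ℝ 𝕜 E] [CompleteSpace E] (hW : HasWMP 𝕜 E (Linf 𝕜))
    (hX : ¬ Function.Surjective (NormedSpace.inclusionInDoubleDual ℝ E)) : False := by
  obtain ⟨G, hG0, hG⟩ := J.james_sup hX
  have hGn : 0 < ‖G‖ := norm_pos_iff.2 hG0
  set G' : StrongDual ℝ E := ‖G‖⁻¹ • G with hG'
  have hG'n : ‖G'‖ = 1 := by
    rw [hG', norm_smul, norm_inv, norm_norm, inv_mul_cancel₀ hGn.ne']
  obtain ⟨z, hz, hfz⟩ := functional_attains hW (G'.extendRCLike : StrongDual 𝕜 E)
    (by rw [StrongDual.norm_extendRCLike, hG'n])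
  set f : StrongDual 𝕜 E := G'.extendRCLike with hf
  set c : 𝕜 := (starRingEnd 𝕜) (f z) with hc
  have hcn : ‖c‖ = 1 := by rw [hc, RCLike.norm_conj, hfz]
  have h1 : f (c • z) = 1 := by
    rw [map_smul, smul_eq_mul, hc, RCLike.conj_mul, hfz]
    simp
  have h2 : G' (c • z) = 1 := by
    have := G'.re_extendRCLike_apply (𝕜 := 𝕜) (c • z)
    rw [← this, ← hf, h1]
    simp
  have h3 : G (c • z) = ‖G‖ := by
    rw [hG', smul_apply, smul_eq_mul] at h2
    field_simp at h2
    exact h2
  have h4 := hG (c • z) (by rw [norm_smul, hcn, hz, one_mul])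
  rw [h3, abs_of_pos hGn] at h4
  exact lt_irrefl _ h4

/-- the reflexive case: there is a weak*-null normalized sequence of functionals -/
lemma reflexive {E : Type*} [NormedAddCommGroup E] [NormedSpace 𝕜 E] [NormedSpace ℝ E]
    [IsScalarTower ℝ 𝕜 E] (hW : HasWMP 𝕜 E (Linf 𝕜))
    (hX : Function.Surjective (NormedSpace.inclusionInDoubleDual ℝ E))
    (hd : ¬ FiniteDimensional ℝ E) : False := by
  obtain ⟨g, hg, hg0⟩ := exists_null_of_reflexive hX hd
  refine no_null hW (fun n => ((g n).extendRCLike : StrongDual 𝕜 E))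
    (fun n => by rw [StrongDual.norm_extendRCLike, hg n]) fun x => ?_
  have h1 : ∀ n, ((g n).extendRCLike : StrongDual 𝕜 E) x =
      ((g n x : ℝ) : 𝕜) - (RCLike.I : 𝕜) * ((g n ((RCLike.I : 𝕜) • x) : ℝ) : 𝕜) :=
    fun n => StrongDual.extendRCLike_apply (g n) x
  have h2 : Tendsto (fun n => ((g n x : ℝ) : 𝕜)) atTop (𝓝 ((0 : ℝ) : 𝕜)) :=
    (RCLike.continuous_ofReal.tendsto 0).comp (hg0 x)
  have h3 : Tendsto (fun n => ((g n ((RCLike.I : 𝕜) • x) : ℝ) : 𝕜)) atTop (𝓝 ((0 : ℝ) : 𝕜)) :=
    (RCLike.continuous_ofReal.tendsto 0).comp (hg0 _)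
  have h4 := h2.sub (h3.const_mul (RCLike.I : 𝕜))
  simp only [RCLike.ofReal_zero, mul_zero, sub_zero] at h4
  exact h4.congr fun n => (h1 n).symm

/-- If the pair `(E, ℓ_∞)` has the weak maximizing property then the Banach space `E` is finite
dimensional. -/
theorem finite_of_linf (E : Type*) [NormedAddCommGroup E] [NormedSpace 𝕜 E] [CompleteSpace E]
    (hW : HasWMP 𝕜 E (Linf 𝕜)) : FiniteDimensional 𝕜 E := by
  let _ : NormedSpace ℝ E := NormedSpace.restrictScalars ℝ 𝕜 E
  have : IsScalarTower ℝ 𝕜 E := inferInstance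
  by_contra hd
  have hd' : ¬ FiniteDimensional ℝ E := fun h => hd (Module.Finite.of_restrictScalars_finite ℝ 𝕜 E)
  by_cases hX : Function.Surjective (NormedSpace.inclusionInDoubleDual ℝ E)
  · exact reflexive hW hX hd'
  · exact nonreflexive hW hX

/-- A finite dimensional space has the weak maximizing property with every range space. -/
theorem wmp_of_finite (E F : Type*) [NormedAddCommGroup E] [NormedSpace 𝕜 E]
    [NormedAddCommGroup F] [NormedSpace 𝕜 F] [FiniteDimensional 𝕜 E] : HasWMP 𝕜 E F := by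
  rintro T ⟨x, ⟨hx1, hx2⟩, -⟩
  have : ProperSpace E := FiniteDimensional.proper 𝕜 E
  obtain ⟨a, ha, φ, hφ, hlim⟩ := (isCompact_sphere (0 : E) 1).tendsto_subseq
    (x := x) (fun n => by rw [mem_sphere_zero_iff_norm]; exact hx1 n)
  refine ⟨a, by rwa [mem_sphere_zero_iff_norm] at ha, ?_⟩
  have h1 : Tendsto (fun n => ‖T (x (φ n))‖) atTop (𝓝 ‖T a‖) :=
    ((T.continuous.norm).tendsto a).comp hlim
  exact tendsto_nhds_unique h1 (hx2.comp hφ.tendsto_atTop)

/-- **Theorem** (positive answer to Q1).  Let `𝕜` be `ℝ` or `ℂ` and `E` a Banach space over `𝕜`.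
The following are equivalent: `E` is finite dimensional; the pair `(E, ℓ_∞)` has the weak maximizing
property; the pair `(E, F)` has the weak maximizing property for every Banach space `F`. -/
theorem result (𝕜 : Type) [RCLike 𝕜] (E : Type*) [NormedAddCommGroup E] [NormedSpace 𝕜 E]
    [CompleteSpace E] :
    List.TFAE [FiniteDimensional 𝕜 E,
      HasWMP 𝕜 E (Linf 𝕜),
      ∀ (F : Type) [NormedAddCommGroup F] [NormedSpace 𝕜 F] [CompleteSpace F],
        HasWMP 𝕜 E F] := by
  tfae_have 1 → 3 := fun h F _ _ _ => by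
    have := h
    exact wmp_of_finite E F
  tfae_have 3 → 2 := fun h => h (Linf 𝕜)
  tfae_have 2 → 1 := finite_of_linf E
  tfae_finish

end Pool.Agent.U461.WMP.Final
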