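import Mathlib

/-!
# Weak*-null normalized sequences in the dual of a reflexive space
-/

set_option autoImplicit false
open Filter Topology Set

namespace Pool.Agent.U461.WMP

variable {X : Type*} [NormedAddCommGroup X] [NormedSpace ℝ X]

/-- The dual of an infinite-dimensional space is infinite-dimensional. -/
lemma dual_infinite (h : ¬ FiniteDimensional ℝ X) : ¬ FiniteDimensional ℝ (StrongDual ℝ X) := by
  intro hf
  apply h
  have h1 : FiniteDimensional ℝ (StrongDual ℝ (StrongDual ℝ X)) := inferInstance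
  have h2 : Function.Injective
      ((NormedSpace.inclusionInDoubleDual ℝ X).toLinearMap : X →ₗ[ℝ] _) := by
    intro a b hab
    exact (NormedSpace.inclusionInDoubleDualLi ℝ (E := X)).injective hab
  exact Module.Finite.of_injective _ h2

/-- ultrafilter limits of bounded sequences of functionals -/
lemma exists_ultra (g : ℕ → StrongDual ℝ X) (C : ℝ) (hg : ∀ n, ‖g n‖ ≤ C) (U : Ultrafilter ℕ) :
    ∃ w : StrongDual ℝ X, ‖w‖ ≤ C ∧ ∀ x, Tendsto (fun n => g n x) U (𝓝 (w x)) := by
  have hc := WeakDual.isCompact_closedBall (𝕜 := ℝ) (E := X) (0 : StrongDual ℝ X) C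
  have hle : ((U.map fun n => StrongDual.toWeakDual (g n) : Ultrafilter (WeakDual ℝ X)) :
      Filter (WeakDual ℝ X)) ≤ 𝓟 (WeakDual.toStrongDual ⁻¹' Metric.closedBall (0 : StrongDual ℝ X) C) := by
    rw [le_principal_iff, Ultrafilter.coe_map]
    refine Filter.mem_map.2 (Filter.univ_mem' fun n => ?_)
    simp only [mem_preimage, Metric.mem_closedBall, dist_zero_right]
    exact hg n
  obtain ⟨w, hw1, hw2⟩ := hc.ultrafilter_le_nhds _ hle
  refine ⟨WeakDual.toStrongDual w, by simpa using hw1, fun x => ?_⟩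
  have h1 : Tendsto (fun n => StrongDual.toWeakDual (g n)) U (𝓝 w) := hw2
  exact ((WeakDual.eval_continuous x).tendsto w).comp h1

/-- Reflexive spaces: weak*-null normalized sequences of functionals. -/
theorem exists_null_of_reflexive
    (hr : Function.Surjective (NormedSpace.inclusionInDoubleDual ℝ X))
    (hd : ¬ FiniteDimensional ℝ X) :
    ∃ g : ℕ → StrongDual ℝ X, (∀ n, ‖g n‖ = 1) ∧ ∀ x, Tendsto (fun n => g n x) atTop (𝓝 0) := by
  classical
  have hd' := dual_infinite hd
  -- a countable independent family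
  obtain ⟨e, he⟩ : ∃ e : ℕ → StrongDual ℝ X, LinearIndependent ℝ e := by
    let b := Module.Basis.ofVectorSpace ℝ (StrongDual ℝ X)
    have hinf : Infinite (Module.Basis.ofVectorSpaceIndex ℝ (StrongDual ℝ X)) := by
      by_contra hfin
      rw [not_infinite_iff_finite] at hfin
      exact hd' (Module.Finite.of_basis b)
    exact ⟨fun n => b (Infinite.natEmbedding _ n), b.linearIndependent.comp _
      (Infinite.natEmbedding _).injective⟩
  set Y : Submodule ℝ (StrongDual ℝ X) := Submodule.span ℝ (range e) with hY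
  have hYinf : ¬ FiniteDimensional ℝ Y := by
    intro hf
    have h1 : LinearIndependent ℝ (fun n => (⟨e n, Submodule.subset_span ⟨n, rfl⟩⟩ : Y)) :=
      LinearIndependent.of_comp Y.subtype he
    exact (not_finite_iff_infinite.2 (inferInstance : Infinite ℕ)) h1.finite
  have hsep : TopologicalSpace.IsSeparable (Y : Set (StrongDual ℝ X)) :=
    (Set.countable_range e).isSeparable.span
  obtain ⟨t, htY, htc, htd⟩ := hsep.exists_countable_dense_subset
  have htne : t.Nonempty := by
    by_contra hne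
    rw [not_nonempty_iff_eq_empty] at hne
    rw [hne, closure_empty] at htd
    exact htd Y.zero_mem
  obtain ⟨y, rfl⟩ := htc.exists_eq_range htne
  -- almost norming points
  have hdk : ∀ k, ∃ d : X, ‖y k‖ ≤ 2 * |y k d| ∧ ‖d‖ ≤ 1 := by
    intro k
    rcases eq_or_ne (y k) 0 with h0 | h0
    · exact ⟨0, by simp [h0], by simp⟩
    · have hpos : 0 < ‖y k‖ := norm_pos_iff.2 h0
      obtain ⟨d, hd1, hd2⟩ := (y k).exists_lt_apply_of_lt_opNorm (half_lt_self hpos)
      rw [Real.norm_eq_abs] at hd2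
      exact ⟨d, by linarith, hd1.le⟩
  choose d hd1 hd2 using hdk
  -- the functionals
  have hgn : ∀ n : ℕ, ∃ g : StrongDual ℝ X, g ∈ Y ∧ ‖g‖ = 1 ∧ ∀ k ≤ n, g (d k) = 0 := by
    intro n
    let L : Y →ₗ[ℝ] (Fin (n + 1) → ℝ) :=
      { toFun := fun y k => (y : StrongDual ℝ X) (d k)
        map_add' := fun a b => by ext k; simp
        map_smul' := fun c a => by ext k; simp }
    have hL : ¬ Function.Injective L := fun hi => hYinf (Module.Finite.of_injective L hi)
    obtain ⟨a, b, hab1, hab2⟩ := Function.not_injective_iff.1 hL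
    set v : StrongDual ℝ X := (a : StrongDual ℝ X) - (b : StrongDual ℝ X) with hv
    have hvY : v ∈ Y := Y.sub_mem a.2 b.2
    have hv0 : v ≠ 0 := fun h => hab2 (Subtype.ext (sub_eq_zero.1 h))
    have hpos : 0 < ‖v‖ := norm_pos_iff.2 hv0
    refine ⟨‖v‖⁻¹ • v, Y.smul_mem _ hvY, ?_, ?_⟩
    · rw [norm_smul, Real.norm_of_nonneg (inv_nonneg.2 hpos.le), inv_mul_cancel₀ hpos.ne']
    · intro k hk
      have h1 : (a : StrongDual ℝ X) (d k) = (b : StrongDual ℝ X) (d k) :=
        congrFun hab1 ⟨k, by omega⟩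
      rw [smul_apply, hv, sub_apply, h1, sub_self, smul_zero]
  choose g hgY hg1 hg0 using hgn
  refine ⟨g, hg1, fun x => ?_⟩
  by_contra hno
  rw [Metric.tendsto_atTop] at hno
  push Not at hno
  obtain ⟨ε, hε, hfr⟩ := hno
  have hne : (atTop ⊓ 𝓟 {n : ℕ | ε ≤ |g n x|}).NeBot := by
    rw [← frequently_mem_iff_neBot, frequently_atTop]
    intro N
    obtain ⟨n, hn1, hn2⟩ := hfr N
    exact ⟨n, hn1, by simpa [Real.dist_eq] using hn2⟩
  obtain ⟨U, hU⟩ := Ultrafilter.exists_le (atTop ⊓ 𝓟 {n : ℕ | ε ≤ |g n x|})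
  obtain ⟨w, hw1, hw2⟩ := exists_ultra g 1 (fun n => (hg1 n).le) U
  have hUt : (U : Filter ℕ) ≤ atTop := hU.trans inf_le_left
  have hUs : ∀ᶠ n in (U : Filter ℕ), ε ≤ |g n x| := (hU.trans inf_le_right) (mem_principal_self _)
  have hwx : ε ≤ |w x| := ge_of_tendsto ((hw2 x).abs) hUs
  -- `w` lies in the closure of `Y`
  have hwY : w ∈ closure (Y : Set (StrongDual ℝ X)) := by
    by_contra hnot
    obtain ⟨Φ, u, hΦ1, hΦ2⟩ := geometric_hahn_banach_closed_point
      (Y.convex.closure) isClosed_closure hnot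
    have hΦ0 : ∀ a ∈ Y, Φ a = 0 := by
      intro a ha
      by_contra hne0
      have h1 := hΦ1 (((|u| + 1) / Φ a) • a) (subset_closure (Y.smul_mem _ ha))
      rw [map_smul, smul_eq_mul, div_mul_cancel₀ _ hne0] at h1
      linarith [le_abs_self u]
    obtain ⟨z, hz⟩ := hr Φ
    have h1 : ∀ n, g n z = 0 := by
      intro n
      have := hΦ0 (g n) (hgY n)
      rw [← hz] at this
      exact this
    have h2 := hw2 z
    simp only [h1] at h2
    have h3 : w z = 0 := tendsto_nhds_unique h2 tendsto_const_nhds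
    have h4 : Φ w = 0 := by rw [← hz]; exact h3
    have h5 := hΦ1 0 (subset_closure Y.zero_mem)
    rw [map_zero] at h5
    linarith
  -- `w` vanishes at the points `d k`
  have hwd : ∀ k, w (d k) = 0 := by
    intro k
    have h1 : ∀ᶠ n in (U : Filter ℕ), g n (d k) = 0 :=
      ((eventually_ge_atTop k).mono fun n hn => hg0 n k hn).filter_mono hUt
    have h2 : Tendsto (fun n => g n (d k)) U (𝓝 0) :=
      (tendsto_congr' h1).2 tendsto_const_nhds
    exact tendsto_nhds_unique (hw2 (d k)) h2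
  have hw0 : w = 0 := by
    have hwt : w ∈ closure (range y) := closure_minimal htd isClosed_closure hwY
    rw [← norm_eq_zero]
    refine le_antisymm (le_of_forall_pos_le_add fun δ hδ => ?_) (norm_nonneg _)
    obtain ⟨_, ⟨k, rfl⟩, hk⟩ := Metric.mem_closure_iff.1 hwt (δ / 3) (by positivity)
    rw [dist_eq_norm] at hk
    have h1 : |y k (d k)| ≤ ‖w - y k‖ := by
      have h2 : y k (d k) = -((w - y k) (d k)) := by
        rw [sub_apply, hwd k]; ring
      rw [h2, abs_neg]
      have h3 := (w - y k).le_opNorm (d k)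
      rw [Real.norm_eq_abs] at h3
      calc |(w - y k) (d k)| ≤ ‖w - y k‖ * ‖d k‖ := h3
        _ ≤ ‖w - y k‖ * 1 := mul_le_mul_of_nonneg_left (hd2 k) (norm_nonneg _)
        _ = _ := mul_one _
    have h4 : ‖w‖ ≤ ‖w - y k‖ + ‖y k‖ := by
      have := norm_add_le (w - y k) (y k)
      rwa [sub_add_cancel] at this
    have h5 := hd1 k
    linarith
  rw [hw0] at hwx
  simp at hwx
  linarith

end Pool.Agent.U461.WMP
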