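import Mathlib
import Pool.Agent.Helper902.NAJames
import Pool.Agent.U461.WMP.Refl

/-!
# James' theorem

A non-reflexive real Banach space carries a continuous functional which does not attain its norm.
-/

set_option autoImplicit false
open Filter Topology Set

namespace Pool.Agent.U461.WMP.J

variable {X : Type*} [NormedAddCommGroup X] [NormedSpace ℝ X]

/-- `h` is a convex block sequence of `f` -/
def Blk (h f : ℕ → StrongDual ℝ X) : Prop := ∀ i, h i ∈ convexHull ℝ (f '' Ici i)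

/-- lower cluster functionals of a sequence -/
def Lc (h : ℕ → StrongDual ℝ X) : Set (StrongDual ℝ X) :=
  {w | ∀ x : X, ∀ ε : ℝ, 0 < ε → ∃ᶠ i in atTop, h i x < w x + ε}

lemma conv_le {f : ℕ → StrongDual ℝ X} {n : ℕ} {u : StrongDual ℝ X}
    (hu : u ∈ convexHull ℝ (f '' Ici n)) (x : X) : ∃ j, n ≤ j ∧ f j x ≤ u x := by
  by_contra hno
  push Not at hno
  have h1 : u ∈ {v : StrongDual ℝ X | u x < v x} := by
    refine convexHull_min ?_ ?_ hu
    · rintro _ ⟨j, hj, rfl⟩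
      exact hno j hj
    · intro a ha b hb p q hp hq hpq
      have ha' : u x < a x := ha
      have hb' : u x < b x := hb
      change u x < (p • a + q • b) x
      rw [add_apply, smul_apply, smul_apply, smul_eq_mul, smul_eq_mul]
      have h3 : u x = p * u x + q * u x := by rw [← add_mul, hpq, one_mul]
      rcases hp.eq_or_lt with h0 | h0
      · rw [← h0, zero_add] at hpq
        rw [← h0, hpq]; linarith
      · have h1 := mul_lt_mul_of_pos_left ha' h0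
        have h2 := mul_le_mul_of_nonneg_left hb'.le hq
        linarith
  have h2 : u x < u x := h1
  exact lt_irrefl _ h2

lemma conv_norm {s : Set (StrongDual ℝ X)} {C : ℝ} (hs : ∀ v ∈ s, ‖v‖ ≤ C) {u : StrongDual ℝ X}
    (hu : u ∈ convexHull ℝ s) : ‖u‖ ≤ C := by
  have h1 : convexHull ℝ s ⊆ Metric.closedBall (0 : StrongDual ℝ X) C :=
    convexHull_min (fun v hv => by simpa using hs v hv) (convex_closedBall _ _)
  simpa using h1 hu

lemma Blk.refl (f : ℕ → StrongDual ℝ X) : Blk f f :=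
  fun i => subset_convexHull ℝ _ ⟨i, mem_Ici.2 le_rfl, rfl⟩

lemma Blk.conv {h f : ℕ → StrongDual ℝ X} (hb : Blk h f) (n : ℕ) :
    convexHull ℝ (h '' Ici n) ⊆ convexHull ℝ (f '' Ici n) := by
  refine convexHull_min ?_ (convex_convexHull ℝ _)
  rintro _ ⟨j, hj, rfl⟩
  exact convexHull_mono (image_mono (Ici_subset_Ici.2 hj)) (hb j)

lemma Blk.trans {k h f : ℕ → StrongDual ℝ X} (h1 : Blk k h) (h2 : Blk h f) : Blk k f :=
  fun i => h2.conv i (h1 i)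

lemma Blk.norm {h f : ℕ → StrongDual ℝ X} (hb : Blk h f) {C : ℝ} (hf : ∀ i, ‖f i‖ ≤ C) (i : ℕ) :
    ‖h i‖ ≤ C :=
  conv_norm (by rintro _ ⟨j, _, rfl⟩; exact hf j) (hb i)

lemma Lc_mono' {k h : ℕ → StrongDual ℝ X} (N : ℕ)
    (hb : ∀ i, N ≤ i → k i ∈ convexHull ℝ (h '' Ici i)) : Lc k ⊆ Lc h := by
  intro w hw x ε hε
  rw [frequently_atTop]
  intro M
  obtain ⟨i, hi1, hi2⟩ := frequently_atTop.1 (hw x ε hε) (max M N)
  obtain ⟨j, hj1, hj2⟩ := conv_le (hb i ((le_max_right _ _).trans hi1)) x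
  exact ⟨j, ((le_max_left _ _).trans hi1).trans hj1, hj2.trans_lt hi2⟩

lemma Lc_mono {k h : ℕ → StrongDual ℝ X} (hb : Blk k h) : Lc k ⊆ Lc h :=
  Lc_mono' 0 fun i _ => hb i

lemma Lc_nonempty {h : ℕ → StrongDual ℝ X} {C : ℝ} (hh : ∀ i, ‖h i‖ ≤ C) : (Lc h).Nonempty := by
  obtain ⟨w, _, hw⟩ := exists_ultra h C hh (hyperfilter ℕ)
  refine ⟨w, fun x ε hε => ?_⟩
  have h1 : ∀ᶠ i in (hyperfilter ℕ : Filter ℕ), h i x < w x + ε :=
    (hw x).eventually (gt_mem_nhds (by linarith))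
  exact h1.frequently.filter_mono Nat.hyperfilter_le_atTop

lemma Lc_norm {h : ℕ → StrongDual ℝ X} {C : ℝ} (hC : 0 ≤ C) (hh : ∀ i, ‖h i‖ ≤ C)
    {w : StrongDual ℝ X} (hw : w ∈ Lc h) : ‖w‖ ≤ C := by
  have h1 : ∀ x, -(C * ‖x‖) ≤ w x := by
    intro x
    refine le_of_forall_pos_le_add fun ε hε => ?_
    obtain ⟨i, hi⟩ := (hw x ε hε).exists
    have h2 := (h i).le_of_opNorm_le (hh i) x
    rw [Real.norm_eq_abs] at h2
    linarith [(abs_le.1 h2).1]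
  refine w.opNorm_le_bound hC fun x => ?_
  rw [Real.norm_eq_abs, abs_le]
  refine ⟨h1 x, ?_⟩
  have := h1 (-x)
  rw [norm_neg, map_neg] at this
  linarith

/-- passing to a subsequence keeps the distance to all lower cluster functionals large -/
lemma trick {h : ℕ → StrongDual ℝ X} {u w₀ : StrongDual ℝ X} (hw₀ : w₀ ∈ Lc h) {t : ℝ}
    (ht : t < ‖u - w₀‖) :
    ∃ k, Blk k h ∧ ∀ w ∈ Lc k, t < ‖u - w‖ := by
  obtain ⟨x, hx1, hx2⟩ : ∃ x : X, ‖x‖ ≤ 1 ∧ t < (u - w₀) x := by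
    obtain ⟨y, hy1, hy2⟩ := (u - w₀).exists_lt_apply_of_lt_opNorm ht
    rw [Real.norm_eq_abs] at hy2
    rcases le_total 0 ((u - w₀) y) with hs | hs
    · exact ⟨y, hy1.le, by rwa [abs_of_nonneg hs] at hy2⟩
    · exact ⟨-y, by rw [norm_neg]; exact hy1.le, by
        rw [map_neg]; rwa [abs_of_nonpos hs] at hy2⟩
  set δ := (u - w₀) x - t with hδ
  have hδ0 : 0 < δ := by rw [hδ]; linarith
  obtain ⟨σ, hσ1, hσ2⟩ := extraction_of_frequently_atTop (hw₀ x (δ / 2) (by linarith))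
  refine ⟨fun i => h (σ i), fun i => subset_convexHull ℝ _ ⟨σ i, hσ1.le_apply, rfl⟩, ?_⟩
  intro w hw
  have h1 : w x ≤ w₀ x + δ / 2 := by
    refine le_of_forall_pos_le_add fun ε hε => ?_
    obtain ⟨i, hi⟩ := (hw (-x) ε hε).exists
    rw [map_neg, map_neg] at hi
    linarith [hσ2 i]
  have h2 : (u - w) x ≤ ‖u - w‖ := by
    have h3 := (u - w).le_opNorm x
    rw [Real.norm_eq_abs] at h3
    calc (u - w) x ≤ |(u - w) x| := le_abs_self _
      _ ≤ ‖u - w‖ * ‖x‖ := h3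
      _ ≤ ‖u - w‖ * 1 := mul_le_mul_of_nonneg_left hx1 (norm_nonneg _)
      _ = _ := mul_one _
  have h3 : (u - w) x = (u - w₀) x + (w₀ x - w x) := by
    rw [sub_apply, sub_apply]; ring
  linarith

/-- the admissible bounds -/
def RR (P : StrongDual ℝ X) (B : ℝ) (n : ℕ) (h : ℕ → StrongDual ℝ X) : Set ℝ :=
  {r | ∃ g ∈ convexHull ℝ (h '' Ici n), ∃ k, Blk k h ∧ ∀ w ∈ Lc k, ‖P + B • g - w‖ ≤ r}

lemma step1 {P : StrongDual ℝ X} {B : ℝ} {n : ℕ} {h : ℕ → StrongDual ℝ X} {θ l : ℝ}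
    (hh : ∀ i, ‖h i‖ ≤ 1) (hθ : 0 < θ) (hl : 0 < l) (_hl1 : l < 1)
    (hlow : ∀ g ∈ convexHull ℝ (h '' Ici n), ∀ k, Blk k h → ∀ w ∈ Lc k, θ ≤ ‖P + B • g - w‖) :
    ∃ α : ℝ, θ ≤ α ∧ IsGLB (RR P B n h) α ∧ ∃ g ∈ convexHull ℝ (h '' Ici n), ∃ k, Blk k h ∧
      ∀ w ∈ Lc k, α * (1 - l) ≤ ‖P + B • g - w‖ ∧ ‖P + B • g - w‖ ≤ α * (1 + l) := by
  have hne : (RR P B n h).Nonempty := by
    refine ⟨‖P + B • h n‖ + 1, h n, subset_convexHull ℝ _ ⟨n, mem_Ici.2 le_rfl, rfl⟩, h, Blk.refl h, ?_⟩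
    intro w hw
    have h1 := norm_sub_le (P + B • h n) w
    have h2 := Lc_norm zero_le_one hh hw
    linarith
  have hlb : ∀ r ∈ RR P B n h, θ ≤ r := by
    rintro r ⟨g, hg, k, hk, hr⟩
    obtain ⟨w, hw⟩ := Lc_nonempty (hk.norm hh)
    exact (hlow g hg k hk w hw).trans (hr w hw)
  have hglb : IsGLB (RR P B n h) (sInf (RR P B n h)) := isGLB_csInf hne ⟨θ, hlb⟩
  set α := sInf (RR P B n h) with hα
  have hθα : θ ≤ α := le_csInf hne hlb
  have hα0 : 0 < α := hθ.trans_le hθα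
  obtain ⟨r, ⟨g, hg, k, hk, hr⟩, hrα⟩ := exists_lt_of_csInf_lt hne
    (show sInf (RR P B n h) < α * (1 + l) by rw [← hα]; nlinarith)
  have hw0 : ∃ w₀ ∈ Lc k, α * (1 - l) < ‖P + B • g - w₀‖ := by
    by_contra hno
    push Not at hno
    have h1 : α ≤ α * (1 - l) := hglb.1 ⟨g, hg, k, hk, hno⟩
    nlinarith
  obtain ⟨w₀, hw01, hw02⟩ := hw0
  obtain ⟨k', hk', hk''⟩ := trick hw01 hw02
  exact ⟨α, hθα, hglb, g, hg, k', hk'.trans hk, fun w hw =>
    ⟨(hk'' w hw).le, (hr w (Lc_mono hk' hw)).trans hrα.le⟩⟩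

section main

variable {x : ℕ → X} {f : ℕ → StrongDual ℝ X} {θ : ℝ}

lemma far (hx : ∀ n, ‖x n‖ ≤ 1) (hf0 : ∀ k n, n < k → f k (x n) = 0)
    (hfθ : ∀ k n, k ≤ n → θ ≤ f k (x n)) {u w : StrongDual ℝ X}
    (hu : u ∈ convexHull ℝ (range f)) (hw : w ∈ Lc f) : θ ≤ ‖u - w‖ := by
  have h1 : u ∈ {v : StrongDual ℝ X | ∃ M : ℕ, ∀ m ≥ M, θ ≤ v (x m)} := by
    refine convexHull_min ?_ ?_ hu
    · rintro _ ⟨k, rfl⟩
      exact ⟨k, fun m hm => hfθ k m hm⟩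
    · rintro a ⟨Ma, hMa⟩ b ⟨Mb, hMb⟩ p q hp hq hpq
      refine ⟨max Ma Mb, fun m hm => ?_⟩
      have h1 := hMa m ((le_max_left _ _).trans hm)
      have h2 := hMb m ((le_max_right _ _).trans hm)
      rw [add_apply, smul_apply, smul_apply, smul_eq_mul, smul_eq_mul]
      have h3 : θ = p * θ + q * θ := by rw [← add_mul, hpq, one_mul]
      nlinarith
  obtain ⟨M, hM⟩ := h1
  have h2 : w (x M) ≤ 0 := by
    refine le_of_forall_pos_le_add fun ε hε => ?_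
    obtain ⟨i, hi1, hi2⟩ := ((hw (-(x M)) ε hε).and_eventually (eventually_gt_atTop M)).exists
    rw [map_neg, map_neg, hf0 i M hi2] at hi1
    linarith
  have h3 := (u - w).le_opNorm (x M)
  rw [Real.norm_eq_abs] at h3
  have h4 : θ ≤ (u - w) (x M) := by
    rw [sub_apply]
    linarith [hM M le_rfl]
  calc θ ≤ (u - w) (x M) := h4
    _ ≤ |(u - w) (x M)| := le_abs_self _
    _ ≤ ‖u - w‖ * ‖x M‖ := h3
    _ ≤ ‖u - w‖ * 1 := mul_le_mul_of_nonneg_left (hx M) (norm_nonneg _)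
    _ = _ := mul_one _

end main

end Pool.Agent.U461.WMP.J
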