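import Pool.Agent.U461.WMP.James

/-!
# James' theorem: the construction
-/

set_option autoImplicit false
open Filter Topology Set

namespace Pool.Agent.U461.WMP.J

variable {X : Type*} [NormedAddCommGroup X] [NormedSpace ℝ X]

/-- the relative errors -/
noncomputable def el (ρ : ℝ) (n : ℕ) : ℝ := ρ ^ (n + 1) * (1 / 2) ^ (n + 2)

lemma el_pos {ρ : ℝ} (h : 0 < ρ) (n : ℕ) : 0 < el ρ n := by unfold el; positivity

lemma el_lt_one {ρ : ℝ} (h : 0 < ρ) (h1 : ρ < 1) (n : ℕ) : el ρ n < 1 := by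
  unfold el
  have h2 : ρ ^ (n + 1) ≤ 1 := pow_le_one₀ h.le h1.le
  have h3 : ((1 : ℝ) / 2) ^ (n + 2) < 1 := pow_lt_one₀ (by norm_num) (by norm_num) (by omega)
  have h4 : 0 < ρ ^ (n + 1) := by positivity
  have h5 : 0 < ((1 : ℝ) / 2) ^ (n + 2) := by positivity
  nlinarith

variable {x : ℕ → X} {f : ℕ → StrongDual ℝ X} {θ : ℝ}

lemma build (hx : ∀ n, ‖x n‖ ≤ 1) (hf1 : ∀ n, ‖f n‖ ≤ 1) (hf0 : ∀ k n, n < k → f k (x n) = 0)
    (hfθ : ∀ k n, k ≤ n → θ ≤ f k (x n)) (hθ : 0 < θ) {ρ : ℝ} (hρ0 : 0 < ρ) (hρ1 : ρ < 1) :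
    ∃ (P : ℕ → StrongDual ℝ X) (h : ℕ → ℕ → StrongDual ℝ X) (g : ℕ → StrongDual ℝ X)
      (α : ℕ → ℝ), P 0 = 0 ∧ h 0 = f ∧ (∀ n, P (n + 1) = P n + ((1 - ρ) * ρ ^ n) • g n) ∧
      (∀ n, g n ∈ convexHull ℝ (h n '' Ici n)) ∧ (∀ n, Blk (h (n + 1)) (h n)) ∧
      (∀ n, θ ≤ α n) ∧ (∀ n, α n ≤ 2) ∧ (∀ n, α n ≤ α (n + 1)) ∧
      ∀ n, ∀ w ∈ Lc (h (n + 1)), α n * (1 - el ρ n) ≤ ‖P n + ρ ^ n • g n - w‖ ∧
        ‖P n + ρ ^ n • g n - w‖ ≤ α n * (1 + el ρ n) := by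
  classical
  let Inv : ℕ → StrongDual ℝ X × (ℕ → StrongDual ℝ X) → Prop := fun n s =>
    Blk s.2 f ∧ ∀ c ∈ convexHull ℝ (range f), s.1 + ρ ^ n • c ∈ convexHull ℝ (range f)
  have hsub : ∀ n, convexHull ℝ (f '' Ici n) ⊆ convexHull ℝ (range f) := fun n =>
    convexHull_mono (image_subset_range _ _)
  have step : ∀ (n : ℕ) (s : StrongDual ℝ X × (ℕ → StrongDual ℝ X)), Inv n s →
      ∃ (g : StrongDual ℝ X) (k : ℕ → StrongDual ℝ X) (a : ℝ), θ ≤ a ∧
        IsGLB (RR s.1 (ρ ^ n) n s.2) a ∧ g ∈ convexHull ℝ (s.2 '' Ici n) ∧ Blk k s.2 ∧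
        ∀ w ∈ Lc k, a * (1 - el ρ n) ≤ ‖s.1 + ρ ^ n • g - w‖ ∧
          ‖s.1 + ρ ^ n • g - w‖ ≤ a * (1 + el ρ n) := by
    rintro n s ⟨h1, h2⟩
    obtain ⟨a, ha1, ha2, g, hg, k, hk, hk2⟩ := step1 (P := s.1) (B := ρ ^ n) (n := n) (h := s.2)
      (h1.norm hf1) hθ (el_pos hρ0 n) (el_lt_one hρ0 hρ1 n) (by
        intro g hg k hk w hw
        exact far hx hf0 hfθ (h2 g (hsub n (h1.conv n hg))) (Lc_mono (hk.trans h1) hw))
    exact ⟨g, k, a, ha1, ha2, hg, hk, hk2⟩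
  choose! g k a hs1 hs2 hs3 hs4 hs5 using step
  let st : ℕ → StrongDual ℝ X × (ℕ → StrongDual ℝ X) := fun n =>
    Nat.rec (0, f) (fun n s => (s.1 + ((1 - ρ) * ρ ^ n) • g n s, k n s)) n
  have hst0 : st 0 = (0, f) := rfl
  have hsts : ∀ n, st (n + 1) = ((st n).1 + ((1 - ρ) * ρ ^ n) • g n (st n), k n (st n)) :=
    fun n => rfl
  have hcomb : ∀ (n : ℕ) (P u v : StrongDual ℝ X),
      P + ((1 - ρ) * ρ ^ n) • u + ρ ^ (n + 1) • v = P + ρ ^ n • ((1 - ρ) • u + ρ • v) := by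
    intro n P u v
    rw [pow_succ]
    module
  have hinv : ∀ n, Inv n (st n) := by
    intro n
    induction n with
    | zero =>
      refine ⟨by rw [hst0]; exact Blk.refl f, fun c hc => ?_⟩
      rw [hst0]
      simpa using hc
    | succ n ih =>
      refine ⟨?_, fun c hc => ?_⟩
      · rw [hsts]; exact (hs4 n _ ih).trans ih.1
      · rw [hsts]
        simp only
        rw [hcomb]
        refine ih.2 _ ?_
        exact (convex_convexHull ℝ _) (hsub n (ih.1.conv n (hs3 n _ ih))) hc (by linarith)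
          hρ0.le (by ring)
  refine ⟨fun n => (st n).1, fun n => (st n).2, fun n => g n (st n), fun n => a n (st n), rfl,
    rfl, fun n => rfl, fun n => hs3 n _ (hinv n), fun n => hs4 n _ (hinv n),
    fun n => hs1 n _ (hinv n), fun n => ?_, fun n => ?_, fun n => hs5 n _ (hinv n)⟩
  · refine (hs2 n _ (hinv n)).1 ?_
    refine ⟨(st n).2 n, subset_convexHull ℝ _ ⟨n, mem_Ici.2 le_rfl, rfl⟩, (st n).2, Blk.refl _, ?_⟩
    intro w hw
    have h1 : ‖(st n).1 + ρ ^ n • (st n).2 n‖ ≤ 1 :=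
      conv_norm (by rintro _ ⟨j, rfl⟩; exact hf1 j) ((hinv n).2 _ (hsub n ((hinv n).1 n)))
    have h2 := Lc_norm zero_le_one ((hinv n).1.norm hf1) hw
    have h3 := norm_sub_le ((st n).1 + ρ ^ n • (st n).2 n) w
    linarith
  · refine (hs2 (n + 1) _ (hinv (n + 1))).2 ?_
    rintro r ⟨g', hg', k', hk', hr⟩
    refine (hs2 n _ (hinv n)).1 ⟨(1 - ρ) • g n (st n) + ρ • g', ?_, k', ?_, ?_⟩
    · have hb : Blk (st (n + 1)).2 (st n).2 := hs4 n _ (hinv n)
      refine (convex_convexHull ℝ _) (hs3 n _ (hinv n)) ?_ (by linarith) hρ0.le (by ring)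
      exact convexHull_mono (image_mono (Ici_subset_Ici.2 (Nat.le_succ n))) (hb.conv (n + 1) hg')
    · exact hk'.trans (hs4 n _ (hinv n))
    · intro w hw
      have := hr w hw
      rw [hsts] at this
      simp only at this
      rw [hcomb] at this
      exact this

/-- **James' theorem** for a non-reflexive real Banach space. -/
theorem james_sup [CompleteSpace X]
    (hX : ¬ Function.Surjective (NormedSpace.inclusionInDoubleDual ℝ X)) :
    ∃ G : StrongDual ℝ X, G ≠ 0 ∧ ∀ z : X, ‖z‖ ≤ 1 → |G z| < ‖G‖ := by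
  obtain ⟨θ, hθ, x, f, hx, hf1, hf0, hfθ⟩ := Pool.Agent.Helper902.NA.james_seq hX
  have hθ1 : θ ≤ 1 := by
    have h1 := hfθ 0 0 le_rfl
    have h2 := (f 0).le_of_opNorm_le (hf1 0) (x 0)
    rw [Real.norm_eq_abs] at h2
    have h3 := le_abs_self (f 0 (x 0))
    have h4 := hx 0
    linarith
  set ρ : ℝ := θ / 16 with hρ
  have hρ0 : 0 < ρ := by positivity
  have hρ1 : ρ < 1 := by rw [hρ]; linarith
  obtain ⟨P, h, g, α, hP0, hh0, hP, hg, hb, hα1, hα2, hα3, hmain⟩ :=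
    build hx hf1 hf0 hfθ hθ hρ0 hρ1
  -- block relations
  have hbb : ∀ m n, m ≤ n → Blk (h n) (h m) := by
    intro m n hmn
    induction n, hmn using Nat.le_induction with
    | base => exact Blk.refl _
    | succ n _ ih => exact (hb n).trans ih
  have hhf : ∀ n, Blk (h n) f := fun n => by
    have := hbb 0 n (Nat.zero_le _)
    rwa [hh0] at this
  have hgn : ∀ n, ‖g n‖ ≤ 1 := fun n =>
    conv_norm (by rintro _ ⟨j, _, rfl⟩; exact (hhf n).norm hf1 j) (hg n)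
  obtain ⟨w, hw⟩ := Lc_nonempty hgn
  have hwn : ‖w‖ ≤ 1 := Lc_norm zero_le_one hgn hw
  have hwh : ∀ n, w ∈ Lc (h n) := fun n =>
    Lc_mono' n (fun i hi => (hbb n i hi).conv i (hg i)) hw
  -- the limit of the partial sums
  have hdist : ∀ n, dist (P n) (P (n + 1)) ≤ (1 - ρ) * ρ ^ n := by
    intro n
    rw [dist_eq_norm, hP n]
    have h1 : P n - (P n + ((1 - ρ) * ρ ^ n) • g n) = -(((1 - ρ) * ρ ^ n) • g n) := by abel
    rw [h1, norm_neg, norm_smul, Real.norm_of_nonneg (by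
      have := pow_pos hρ0 n
      exact mul_nonneg (by linarith) this.le)]
    calc (1 - ρ) * ρ ^ n * ‖g n‖ ≤ (1 - ρ) * ρ ^ n * 1 :=
          mul_le_mul_of_nonneg_left (hgn n) (mul_nonneg (by linarith) (pow_pos hρ0 n).le)
      _ = _ := mul_one _
  obtain ⟨u, hu⟩ := cauchySeq_tendsto_of_complete (cauchySeq_of_le_geometric ρ (1 - ρ) hρ1 hdist)
  have hPu : ∀ n, ‖P n - u‖ ≤ ρ ^ n := by
    intro n
    have h1 := dist_le_of_le_geometric_of_tendsto ρ (1 - ρ) hρ1 hdist hu n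
    rw [dist_eq_norm] at h1
    have h2 : (1 - ρ) * ρ ^ n / (1 - ρ) = ρ ^ n := by
      have : (1 - ρ) ≠ 0 := by linarith
      field_simp
    rwa [h2] at h1
  -- the supremum of the `α n`
  have hmono : Monotone α := monotone_nat_of_le_succ hα3
  have hbdd : BddAbove (range α) := ⟨2, by rintro _ ⟨n, rfl⟩; exact hα2 n⟩
  set A : ℝ := ⨆ n, α n with hA
  have hαA : ∀ n, α n ≤ A := fun n => le_ciSup hbdd n
  have hθA : θ ≤ A := (hα1 0).trans (hαA 0)
  have hA0 : 0 < A := hθ.trans_le hθA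
  have hlim : Tendsto α atTop (𝓝 A) := tendsto_atTop_ciSup hmono hbdd
  have hρn : Tendsto (fun n : ℕ => ρ ^ n) atTop (𝓝 0) :=
    tendsto_pow_atTop_nhds_zero_of_lt_one hρ0.le hρ1
  have hel : Tendsto (fun n => el ρ n) atTop (𝓝 0) := by
    have h1 := (hρn.comp (tendsto_add_atTop_nat 1)).mul
      ((tendsto_pow_atTop_nhds_zero_of_lt_one (r := (1 / 2 : ℝ)) (by norm_num)
        (by norm_num)).comp (tendsto_add_atTop_nat 2))
    rw [mul_zero] at h1
    exact h1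
  set G := u - w with hG
  have hGA : A ≤ ‖G‖ := by
    have h1 : ∀ n, α n * (1 - el ρ n) - 2 * ρ ^ n ≤ ‖G‖ := by
      intro n
      have h2 := (hmain n w (hwh (n + 1))).1
      have h3 : P n + ρ ^ n • g n - w = G + ((P n - u) + ρ ^ n • g n) := by
        rw [hG]; abel
      have h4 := norm_add_le G ((P n - u) + ρ ^ n • g n)
      rw [← h3] at h4
      have h5 := norm_add_le (P n - u) (ρ ^ n • g n)
      have h6 : ‖ρ ^ n • g n‖ ≤ ρ ^ n := by
        rw [norm_smul, Real.norm_of_nonneg (pow_pos hρ0 n).le]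
        calc ρ ^ n * ‖g n‖ ≤ ρ ^ n * 1 :=
              mul_le_mul_of_nonneg_left (hgn n) (pow_pos hρ0 n).le
          _ = _ := mul_one _
      have h7 := hPu n
      linarith
    have h2 : Tendsto (fun n => α n * (1 - el ρ n) - 2 * ρ ^ n) atTop (𝓝 (A * (1 - 0) - 2 * 0)) :=
      (hlim.mul (tendsto_const_nhds.sub hel)).sub (hρn.const_mul 2)
    have h3 := le_of_tendsto' h2 h1
    linarith
  -- the partial sums `D n`
  have hD : ∀ n, ‖P n - (1 - ρ ^ n) • w‖ ≤ A * (1 - ρ ^ n * (1 / 2 * (1 + (1 / 2) ^ n))) := by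
    intro n
    induction n with
    | zero => rw [hP0]; norm_num
    | succ n ih =>
      have h1 : P (n + 1) - (1 - ρ ^ (n + 1)) • w =
          ρ • (P n - (1 - ρ ^ n) • w) + (1 - ρ) • (P n + ρ ^ n • g n - w) := by
        rw [hP n, pow_succ]
        module
      have h2 : ‖P n + ρ ^ n • g n - w‖ ≤ A * (1 + el ρ n) := by
        refine (hmain n w (hwh (n + 1))).2.trans ?_
        exact mul_le_mul_of_nonneg_right (hαA n) (by have := el_pos hρ0 n; linarith)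
      rw [h1]
      refine (norm_add_le _ _).trans ?_
      rw [norm_smul, norm_smul, Real.norm_of_nonneg hρ0.le,
        Real.norm_of_nonneg (by linarith : 0 ≤ 1 - ρ)]
      have h3 := mul_le_mul_of_nonneg_left ih hρ0.le
      have h4 := mul_le_mul_of_nonneg_left h2 (by linarith : 0 ≤ 1 - ρ)
      have h5 : (1 - ρ) * (A * el ρ n) ≤ A * el ρ n := by
        have : 0 ≤ A * el ρ n := mul_nonneg hA0.le (el_pos hρ0 n).le
        nlinarith
      have h6 : A * el ρ n = A * (ρ ^ (n + 1) * (1 / 2 * ((1 / 2) ^ n - (1 / 2) ^ (n + 1)))) := by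
        unfold el
        ring
      have h7 : ρ * (A * (1 - ρ ^ n * (1 / 2 * (1 + (1 / 2) ^ n)))) +
          (1 - ρ) * A + A * el ρ n = A * (1 - ρ ^ (n + 1) * (1 / 2 * (1 + (1 / 2) ^ (n + 1)))) := by
        rw [h6]
        ring
      linarith
  have hD' : ∀ n, ‖P n - (1 - ρ ^ n) • w‖ ≤ A * (1 - ρ ^ n / 2) := by
    intro n
    refine (hD n).trans ?_
    refine mul_le_mul_of_nonneg_left ?_ hA0.le
    have h1 : 0 < ((1 : ℝ) / 2) ^ n := by positivity
    have h2 := pow_pos hρ0 n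
    nlinarith
  -- no point of the ball is a norming point
  have hkey : ∀ z : X, ‖z‖ ≤ 1 → G z < ‖G‖ := by
    intro z hz
    by_contra hno
    have hGz : ‖G‖ ≤ G z := not_lt.1 hno
    obtain ⟨n, hn⟩ := (hw z (A / 4) (by linarith)).exists
    have hev : ∀ (v : StrongDual ℝ X) (c : ℝ), ‖v‖ ≤ c → v z ≤ c := by
      intro v c hv
      have h1 := v.le_opNorm z
      rw [Real.norm_eq_abs] at h1
      calc v z ≤ |v z| := le_abs_self _
        _ ≤ ‖v‖ * ‖z‖ := h1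
        _ ≤ ‖v‖ * 1 := mul_le_mul_of_nonneg_left hz (norm_nonneg _)
        _ ≤ c := by rw [mul_one]; exact hv
    have h1 : G = (P n - (1 - ρ ^ n) • w) + ((1 - ρ) * ρ ^ n) • (g n - w) +
        (-(P (n + 1) - u) - ρ ^ (n + 1) • w) := by
      rw [hG, hP n, pow_succ]
      module
    have h2 : ‖-(P (n + 1) - u) - ρ ^ (n + 1) • w‖ ≤ 2 * ρ ^ (n + 1) := by
      refine (norm_sub_le _ _).trans ?_
      rw [norm_neg, norm_smul, Real.norm_of_nonneg (pow_pos hρ0 _).le]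
      have h3 := hPu (n + 1)
      have h4 : ρ ^ (n + 1) * ‖w‖ ≤ ρ ^ (n + 1) * 1 :=
        mul_le_mul_of_nonneg_left hwn (pow_pos hρ0 _).le
      linarith
    have h3 := hev _ _ h2
    have h4 := hev _ _ (hD' n)
    have h5 : (g n - w) z ≤ A / 4 := by
      rw [sub_apply]; linarith
    have h6 : G z = (P n - (1 - ρ ^ n) • w) z + ((1 - ρ) * ρ ^ n) * (g n - w) z +
        (-(P (n + 1) - u) - ρ ^ (n + 1) • w) z := by
      conv_lhs => rw [h1]
      rw [add_apply, add_apply, smul_apply, smul_eq_mul]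
    have h7 : ((1 - ρ) * ρ ^ n) * (g n - w) z ≤ ρ ^ n * (A / 4) := by
      have h8 := pow_pos hρ0 n
      calc ((1 - ρ) * ρ ^ n) * (g n - w) z ≤ ((1 - ρ) * ρ ^ n) * (A / 4) :=
            mul_le_mul_of_nonneg_left h5 (mul_nonneg (by linarith) h8.le)
        _ ≤ ρ ^ n * (A / 4) := by
            refine mul_le_mul_of_nonneg_right ?_ (by linarith)
            nlinarith
    have h8 : 2 * ρ ^ (n + 1) = ρ ^ n * (θ / 8) := by rw [pow_succ, hρ]; ring
    have h9 := pow_pos hρ0 n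
    have h10 : A ≤ A * (1 - ρ ^ n / 2) + ρ ^ n * (A / 4) + ρ ^ n * (θ / 8) := by linarith
    have h11 : ρ ^ n * (A / 4) ≤ ρ ^ n * (θ / 8) := by nlinarith
    have h12 : A / 4 ≤ θ / 8 := le_of_mul_le_mul_left h11 h9
    linarith
  refine ⟨G, ?_, fun z hz => ?_⟩
  · intro h0
    rw [h0, norm_zero] at hGA
    linarith
  · rw [abs_lt]
    refine ⟨?_, hkey z hz⟩
    have := hkey (-z) (by rwa [norm_neg])
    rw [map_neg] at this
    linarith

end Pool.Agent.U461.WMP.J
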