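import Mathlib

/-!
# The weak maximizing property of the pair `(E, ℓ_∞)`

If `(E, ℓ_∞)` has the WMP then the dual of `E` contains no weak*-null sequence of norm one vectors.
-/

set_option autoImplicit false
open Filter Topology Set
open scoped ENNReal

namespace Pool.Agent.U461.WMP

section defs

variable (𝕜 : Type*) [RCLike 𝕜]

/-- the space `ℓ_∞` of bounded scalar sequences -/
abbrev Linf : Type _ := lp (fun _ : ℕ => 𝕜) ∞

variable {E F : Type*} [NormedAddCommGroup E] [NormedSpace 𝕜 E]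
  [NormedAddCommGroup F] [NormedSpace 𝕜 F]

variable {𝕜} in
/-- `T` attains its norm -/
def AttainsNorm (T : E →L[𝕜] F) : Prop := ∃ x : E, ‖x‖ = 1 ∧ ‖T x‖ = ‖T‖

variable {𝕜} in
/-- `x` is a maximizing sequence for `T` -/
def IsMaximizing (T : E →L[𝕜] F) (x : ℕ → E) : Prop :=
  (∀ n, ‖x n‖ = 1) ∧ Tendsto (fun n => ‖T (x n)‖) atTop (𝓝 ‖T‖)

/-- the sequence `x` is weakly null -/
def WeaklyNull (x : ℕ → E) : Prop :=
  ∀ f : E →L[𝕜] 𝕜, Tendsto (fun n => f (x n)) atTop (𝓝 0)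

variable (E F) in
/-- the pair `(E, F)` has the weak maximizing property -/
def HasWMP : Prop :=
  ∀ T : E →L[𝕜] F, (∃ x : ℕ → E, IsMaximizing T x ∧ ¬ WeaklyNull 𝕜 x) → AttainsNorm T

end defs

variable {𝕜 : Type*} [RCLike 𝕜] {E : Type*} [NormedAddCommGroup E] [NormedSpace 𝕜 E]

/-- the operator `x ↦ (a_n f_n(x))` -/
noncomputable def seqOp (a : ℕ → ℝ) (f : ℕ → E →L[𝕜] 𝕜) (ha : ∀ n, 0 ≤ a n ∧ a n ≤ 1)
    (hf : ∀ n, ‖f n‖ ≤ 1) : E →L[𝕜] Linf 𝕜 :=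
  LinearMap.mkContinuous
    { toFun := fun x => ⟨fun n => (a n : 𝕜) * f n x, memℓp_infty ⟨‖x‖, by
        rintro _ ⟨n, rfl⟩
        simp only [norm_mul, RCLike.norm_ofReal, abs_of_nonneg (ha n).1]
        have h1 : ‖f n x‖ ≤ ‖x‖ := by simpa using (f n).le_of_opNorm_le (hf n) x
        calc a n * ‖f n x‖ ≤ 1 * ‖x‖ :=
              mul_le_mul (ha n).2 h1 (norm_nonneg _) zero_le_one
          _ = ‖x‖ := one_mul _⟩⟩
      map_add' := fun x y => by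
        ext n
        simp only [map_add, mul_add]
        rfl
      map_smul' := fun c x => by
        ext n
        simp only [map_smul, smul_eq_mul, RingHom.id_apply, lp.coeFn_smul, Pi.smul_apply]
        ring } 1 (by
    intro x
    rw [one_mul]
    refine lp.norm_le_of_forall_le (norm_nonneg _) fun n => ?_
    change ‖(a n : 𝕜) * f n x‖ ≤ ‖x‖
    simp only [norm_mul, RCLike.norm_ofReal, abs_of_nonneg (ha n).1]
    have h1 : ‖f n x‖ ≤ ‖x‖ := by simpa using (f n).le_of_opNorm_le (hf n) x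
    calc a n * ‖f n x‖ ≤ 1 * ‖x‖ :=
          mul_le_mul (ha n).2 h1 (norm_nonneg _) zero_le_one
      _ = ‖x‖ := one_mul _)

lemma seqOp_apply (a : ℕ → ℝ) (f : ℕ → E →L[𝕜] 𝕜) (ha : ∀ n, 0 ≤ a n ∧ a n ≤ 1)
    (hf : ∀ n, ‖f n‖ ≤ 1) (x : E) (n : ℕ) :
    (seqOp a f ha hf x : ℕ → 𝕜) n = (a n : 𝕜) * f n x := rfl

lemma norm_seqOp_le (a : ℕ → ℝ) (f : ℕ → E →L[𝕜] 𝕜) (ha : ∀ n, 0 ≤ a n ∧ a n ≤ 1)
    (hf : ∀ n, ‖f n‖ ≤ 1) : ‖seqOp a f ha hf‖ ≤ 1 :=
  LinearMap.mkContinuous_norm_le _ zero_le_one _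

lemma norm_coord_le (a : ℕ → ℝ) (f : ℕ → E →L[𝕜] 𝕜) (ha : ∀ n, 0 ≤ a n ∧ a n ≤ 1)
    (hf : ∀ n, ‖f n‖ ≤ 1) (x : E) (n : ℕ) : a n * ‖f n x‖ ≤ ‖seqOp a f ha hf x‖ := by
  have h := lp.norm_apply_le_norm (ENNReal.top_ne_zero) (seqOp a f ha hf x) n
  rw [seqOp_apply, norm_mul, RCLike.norm_ofReal, abs_of_nonneg (ha n).1] at h
  exact h

/-- the weights -/
noncomputable def wt (n : ℕ) : ℝ := 1 - 1 / ((n : ℝ) + 2)

lemma wt_nonneg (n : ℕ) : 0 ≤ wt n := by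
  unfold wt
  have : 1 / ((n : ℝ) + 2) ≤ 1 := by
    rw [div_le_one (by positivity)]
    have := Nat.cast_nonneg (α := ℝ) n
    linarith
  linarith

lemma wt_lt_one (n : ℕ) : wt n < 1 := by
  unfold wt
  have : 0 < 1 / ((n : ℝ) + 2) := by positivity
  linarith

lemma wt_mono {m n : ℕ} (h : m ≤ n) : wt m ≤ wt n := by
  unfold wt
  have h1 : (m : ℝ) ≤ n := by exact_mod_cast h
  have : 1 / ((n : ℝ) + 2) ≤ 1 / ((m : ℝ) + 2) := by
    apply one_div_le_one_div_of_le (by positivity); linarith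
  linarith

lemma wt_tendsto : Tendsto wt atTop (𝓝 1) := by
  have h : Tendsto (fun n : ℕ => 1 / ((n : ℝ) + 2)) atTop (𝓝 0) := by
    have := (tendsto_one_div_add_atTop_nhds_zero_nat (𝕜 := ℝ)).comp (tendsto_add_atTop_nat 1)
    refine this.congr fun n => ?_
    simp only [Function.comp_apply]
    push_cast
    ring_nf
  have h2 := (tendsto_const_nhds (x := (1 : ℝ))).sub h
  rw [sub_zero] at h2
  exact h2

/-- Lemma A. -/
theorem lemmaA (hW : HasWMP 𝕜 E (Linf 𝕜)) (f : ℕ → E →L[𝕜] 𝕜) (hf : ∀ n, ‖f n‖ ≤ 1)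
    (x : ℕ → E) (hx : ∀ n, ‖x n‖ = 1) (hfx : Tendsto (fun n => ‖f n (x n)‖) atTop (𝓝 1))
    (hnull : ¬ WeaklyNull 𝕜 x) :
    ∃ z : E, ‖z‖ = 1 ∧ ∀ ε : ℝ, 0 < ε → ∃ᶠ n in atTop, 1 - ε < ‖f n z‖ := by
  have ha : ∀ n, 0 ≤ wt n ∧ wt n ≤ 1 := fun n => ⟨wt_nonneg n, (wt_lt_one n).le⟩
  set T := seqOp wt f ha hf with hT
  have hlow : ∀ n, wt n * ‖f n (x n)‖ ≤ ‖T (x n)‖ := fun n => norm_coord_le wt f ha hf (x n) n
  have hup : ∀ n, ‖T (x n)‖ ≤ ‖T‖ := fun n => by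
    have := T.le_opNorm (x n)
    rwa [hx n, mul_one] at this
  have hprod : Tendsto (fun n => wt n * ‖f n (x n)‖) atTop (𝓝 1) := by
    simpa using wt_tendsto.mul hfx
  have hT1 : ‖T‖ = 1 := by
    refine le_antisymm (norm_seqOp_le wt f ha hf) ?_
    exact le_of_tendsto' hprod fun n => (hlow n).trans (hup n)
  have hmax : IsMaximizing T x := by
    refine ⟨hx, ?_⟩
    rw [hT1]
    exact tendsto_of_tendsto_of_tendsto_of_le_of_le hprod tendsto_const_nhds hlow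
      (fun n => by rw [← hT1]; exact hup n)
  obtain ⟨z, hz1, hz2⟩ := hW T ⟨x, hmax, hnull⟩
  refine ⟨z, hz1, ?_⟩
  intro ε hε
  by_contra hno
  rw [not_frequently, eventually_atTop] at hno
  obtain ⟨N, hN⟩ := hno
  have hb : ‖T z‖ ≤ max (1 - ε) (wt N) := by
    refine lp.norm_le_of_forall_le (le_max_of_le_right (wt_nonneg N)) fun n => ?_
    rw [hT, seqOp_apply, norm_mul, RCLike.norm_ofReal, abs_of_nonneg (wt_nonneg n)]
    have h1 : ‖f n z‖ ≤ 1 := by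
      have := (f n).le_of_opNorm_le (hf n) z
      rw [hz1] at this; simpa using this
    rcases le_total N n with h | h
    · refine le_max_of_le_left ?_
      have h2 := not_lt.1 (hN n h)
      calc wt n * ‖f n z‖ ≤ 1 * ‖f n z‖ :=
            mul_le_mul_of_nonneg_right (wt_lt_one n).le (norm_nonneg _)
        _ ≤ 1 - ε := by rw [one_mul]; exact h2
    · refine le_max_of_le_right ?_
      calc wt n * ‖f n z‖ ≤ wt n * 1 := mul_le_mul_of_nonneg_left h1 (wt_nonneg n)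
        _ = wt n := mul_one _
        _ ≤ wt N := wt_mono h
  rw [hz2, hT1] at hb
  exact absurd hb (not_le.2 (max_lt (by linarith) (wt_lt_one N)))

/-- If `(E, ℓ_∞)` has the WMP then every functional attains its norm. -/
theorem functional_attains (hW : HasWMP 𝕜 E (Linf 𝕜)) (f : E →L[𝕜] 𝕜) (hf : ‖f‖ = 1) :
    ∃ z : E, ‖z‖ = 1 ∧ ‖f z‖ = 1 := by
  have hex : ∀ n : ℕ, ∃ x : E, ‖x‖ = 1 ∧ 1 - 1 / ((n : ℝ) + 1) < ‖f x‖ := by
    intro n
    have hpos : 0 < 1 / ((n : ℝ) + 1) := by positivity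
    obtain ⟨x, hx1, hx2⟩ := f.exists_lt_apply_of_lt_opNorm (r := 1 - 1 / ((n : ℝ) + 1))
      (by rw [hf]; linarith)
    have hx0 : 0 ≤ ‖f x‖ := norm_nonneg _
    rcases eq_or_ne x 0 with rfl | hne
    · exfalso
      rw [map_zero, norm_zero] at hx2
      have : 1 / ((n : ℝ) + 1) ≤ 1 := by
        rw [div_le_one (by positivity)]
        have := Nat.cast_nonneg (α := ℝ) n
        linarith
      linarith
    · have hxn : 0 < ‖x‖ := norm_pos_iff.2 hne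
      refine ⟨((‖x‖⁻¹ : ℝ) : 𝕜) • x, ?_, ?_⟩
      · rw [norm_smul, RCLike.norm_ofReal, abs_of_pos (inv_pos.2 hxn), inv_mul_cancel₀ hxn.ne']
      · rw [map_smul, norm_smul, RCLike.norm_ofReal, abs_of_pos (inv_pos.2 hxn)]
        refine hx2.trans_le ?_
        rw [inv_mul_eq_div, le_div_iff₀ hxn]
        nlinarith
  choose x hx1 hx2 using hex
  have hlim : Tendsto (fun n => ‖f (x n)‖) atTop (𝓝 1) := by
    have h1 : Tendsto (fun n : ℕ => 1 - 1 / ((n : ℝ) + 1)) atTop (𝓝 1) := by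
      simpa using (tendsto_const_nhds (x := (1 : ℝ))).sub
        (tendsto_one_div_add_atTop_nhds_zero_nat (𝕜 := ℝ))
    refine tendsto_of_tendsto_of_tendsto_of_le_of_le h1 tendsto_const_nhds
      (fun n => (hx2 n).le) (fun n => ?_)
    have := f.le_opNorm (x n)
    rwa [hf, hx1 n, one_mul] at this
  have hnn : ¬ WeaklyNull 𝕜 x := by
    intro h
    have h1 := (h f).norm
    rw [norm_zero] at h1
    exact one_ne_zero (tendsto_nhds_unique hlim h1)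
  obtain ⟨z, hz1, hz2⟩ := lemmaA hW (fun _ => f) (fun _ => hf.le) x hx1 hlim hnn
  refine ⟨z, hz1, le_antisymm ?_ ?_⟩
  · have := f.le_opNorm z
    rwa [hf, hz1, one_mul] at this
  · refine le_of_forall_pos_lt_add fun ε hε => ?_
    obtain ⟨n, hn⟩ := (hz2 ε hε).exists
    linarith

/-- existence of almost norming vectors -/
lemma exists_almost {f : E →L[𝕜] 𝕜} (hf : ‖f‖ = 1) {ε : ℝ} (hε : 0 < ε) :
    ∃ x : E, ‖x‖ = 1 ∧ f x = ((‖f x‖ : ℝ) : 𝕜) ∧ 1 - ε < ‖f x‖ := by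
  have hnt : ∃ y : E, f y ≠ 0 := by
    by_contra h
    push Not at h
    have : f = 0 := ContinuousLinearMap.ext h
    rw [this, norm_zero] at hf
    exact zero_ne_one hf
  obtain ⟨x, hx1, hx2⟩ : ∃ x : E, ‖x‖ = 1 ∧ 1 - ε < ‖f x‖ := by
    by_contra hno
    push Not at hno
    have hε1 : ε ≤ 1 := by
      obtain ⟨y, hy⟩ := hnt
      have hy0 : y ≠ 0 := by rintro rfl; exact hy (map_zero f)
      have hyn : 0 < ‖y‖ := norm_pos_iff.2 hy0
      have := hno (((‖y‖⁻¹ : ℝ) : 𝕜) • y) (by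
        rw [norm_smul, RCLike.norm_ofReal, abs_of_pos (inv_pos.2 hyn), inv_mul_cancel₀ hyn.ne'])
      linarith [norm_nonneg (f (((‖y‖⁻¹ : ℝ) : 𝕜) • y))]
    have : ‖f‖ ≤ 1 - ε := by
      refine f.opNorm_le_bound (by linarith) fun y => ?_
      rcases eq_or_ne y 0 with rfl | hy0
      · simp
      · have hyn : 0 < ‖y‖ := norm_pos_iff.2 hy0
        have h1 := hno (((‖y‖⁻¹ : ℝ) : 𝕜) • y) (by
          rw [norm_smul, RCLike.norm_ofReal, abs_of_pos (inv_pos.2 hyn),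
            inv_mul_cancel₀ hyn.ne'])
        rw [map_smul, norm_smul, RCLike.norm_ofReal, abs_of_pos (inv_pos.2 hyn),
          inv_mul_eq_div, div_le_iff₀ hyn] at h1
        exact h1
    rw [hf] at this
    linarith
  -- rotate
  rcases eq_or_ne (f x) 0 with h0 | h0
  · exact ⟨x, hx1, by simp [h0], hx2⟩
  · have hn : 0 < ‖f x‖ := norm_pos_iff.2 h0
    set c : 𝕜 := (starRingEnd 𝕜) (f x) / ((‖f x‖ : ℝ) : 𝕜) with hc
    have hcn : ‖c‖ = 1 := by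
      rw [hc, norm_div, RCLike.norm_conj, RCLike.norm_ofReal, abs_of_pos hn, div_self hn.ne']
    have hcf : f (c • x) = ((‖f x‖ : ℝ) : 𝕜) := by
      rw [map_smul, smul_eq_mul, hc, div_mul_eq_mul_div, RCLike.conj_mul]
      have : ((‖f x‖ : ℝ) : 𝕜) ≠ 0 := by exact_mod_cast hn.ne'
      field_simp
    have hcfn : ‖f (c • x)‖ = ‖f x‖ := by
      rw [hcf, RCLike.norm_ofReal, abs_of_pos hn]
    exact ⟨c • x, by rw [norm_smul, hcn, hx1, one_mul], by rw [hcfn, hcf], by rw [hcfn]; exact hx2⟩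

lemma seq_tendsto_one {r : ℕ → ℝ} (h1 : ∀ n : ℕ, 1 - 1 / ((n : ℝ) + 1) < r n) (h2 : ∀ n, r n ≤ 1) :
    Tendsto r atTop (𝓝 1) := by
  have h3 : Tendsto (fun n : ℕ => 1 - 1 / ((n : ℝ) + 1)) atTop (𝓝 1) := by
    simpa using (tendsto_const_nhds (x := (1 : ℝ))).sub
      (tendsto_one_div_add_atTop_nhds_zero_nat (𝕜 := ℝ))
  exact tendsto_of_tendsto_of_tendsto_of_le_of_le h3 tendsto_const_nhds
    (fun n => (h1 n).le) h2

/-- Lemma B. -/
theorem lemmaB (hW : HasWMP 𝕜 E (Linf 𝕜)) (g : ℕ → E →L[𝕜] 𝕜) (hg : ∀ n, ‖g n‖ = 1)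
    (hg0 : ∀ x, Tendsto (fun n => g n x) atTop (𝓝 0)) (f : E →L[𝕜] 𝕜) (c : ℝ) (hc1 : 1 < c)
    (hcf : ‖f‖ < c) : ∀ᶠ n in atTop, ‖f + g n‖ < c := by
  by_contra hno
  rw [not_eventually] at hno
  obtain ⟨φ, hφ, hφc⟩ := extraction_of_frequently_atTop hno
  have hφc' : ∀ n, c ≤ ‖f + g (φ n)‖ := fun n => not_lt.1 (hφc n)
  have hc0 : 0 < c := by linarith
  have hpos : ∀ n, 0 < ‖f + g (φ n)‖ := fun n => hc0.trans_le (hφc' n)
  set h : ℕ → E →L[𝕜] 𝕜 := fun n => ((‖f + g (φ n)‖⁻¹ : ℝ) : 𝕜) • (f + g (φ n)) with hh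
  have hh1 : ∀ n, ‖h n‖ = 1 := by
    intro n
    rw [hh]
    simp only
    rw [norm_smul, RCLike.norm_ofReal, abs_of_pos (inv_pos.2 (hpos n)),
      inv_mul_cancel₀ (hpos n).ne']
  choose x hx1 hx2 hx3 using fun n : ℕ =>
    exists_almost (hh1 n) (ε := 1 / ((n : ℝ) + 1)) (by positivity)
  have hle : ∀ n, ‖h n (x n)‖ ≤ 1 := fun n => by
    have := (h n).le_opNorm (x n)
    rwa [hh1 n, hx1 n, one_mul] at this
  have hlim := seq_tendsto_one hx3 hle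
  have hval : ∀ n z, ‖h n z‖ = ‖f + g (φ n)‖⁻¹ * ‖f z + g (φ n) z‖ := by
    intro n z
    rw [hh]
    simp only [smul_apply, add_apply, norm_smul,
      RCLike.norm_ofReal]
    rw [abs_of_pos (inv_pos.2 (hpos n))]
  have hg0' : ∀ z, Tendsto (fun n => g (φ n) z) atTop (𝓝 0) := fun z =>
    (hg0 z).comp hφ.tendsto_atTop
  by_cases hnull : WeaklyNull 𝕜 x
  · -- `f (x n) → 0`
    have h1 := (hnull f).norm
    rw [norm_zero] at h1
    have h2 : ∀ n, c * ‖h n (x n)‖ ≤ ‖f (x n)‖ + 1 := by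
      intro n
      have h3 : ‖f (x n) + g (φ n) (x n)‖ ≤ ‖f (x n)‖ + 1 := by
        refine (norm_add_le _ _).trans ?_
        have := (g (φ n)).le_opNorm (x n)
        rw [hg, hx1 n, one_mul] at this
        linarith
      rw [hval, ← mul_assoc]
      have h4 : c * ‖f + g (φ n)‖⁻¹ ≤ 1 := by
        rw [← div_eq_mul_inv, div_le_one (hpos n)]
        exact hφc' n
      calc c * ‖f + g (φ n)‖⁻¹ * ‖f (x n) + g (φ n) (x n)‖
          ≤ 1 * ‖f (x n) + g (φ n) (x n)‖ :=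
            mul_le_mul_of_nonneg_right h4 (norm_nonneg _)
        _ ≤ _ := by rw [one_mul]; exact h3
    have h3 := le_of_tendsto_of_tendsto' (hlim.const_mul c) (h1.add_const 1) h2
    linarith
  · obtain ⟨z, hz1, hz2⟩ := lemmaA hW h (fun n => (hh1 n).le) x hx1 hlim hnull
    -- `limsup |h n z| ≤ ‖f‖ / c < 1`
    have hb : ∀ n, ‖h n z‖ ≤ c⁻¹ * (‖f‖ + ‖g (φ n) z‖) := by
      intro n
      rw [hval]
      refine mul_le_mul ?_ ?_ (norm_nonneg _) (inv_nonneg.2 hc0.le)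
      · exact inv_anti₀ hc0 (hφc' n)
      · refine (norm_add_le _ _).trans ?_
        have := f.le_opNorm z
        rw [hz1, mul_one] at this
        linarith
    have hlim2 : Tendsto (fun n => c⁻¹ * (‖f‖ + ‖g (φ n) z‖)) atTop (𝓝 (c⁻¹ * ‖f‖)) := by
      have := (hg0' z).norm
      rw [norm_zero] at this
      simpa using (this.const_add ‖f‖).const_mul c⁻¹
    have hlt : c⁻¹ * ‖f‖ < 1 := by
      rw [inv_mul_eq_div, div_lt_one hc0]; exact hcf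
    set ε := (1 - c⁻¹ * ‖f‖) / 2 with hε
    have hε0 : 0 < ε := by rw [hε]; linarith
    have hev : ∀ᶠ n in atTop, c⁻¹ * (‖f‖ + ‖g (φ n) z‖) < 1 - ε :=
      hlim2.eventually (gt_mem_nhds (by rw [hε]; linarith))
    obtain ⟨n, hn1, hn2⟩ := ((hz2 ε hε0).and_eventually hev).exists
    linarith [hb n]

/-- Lemma C. -/
theorem lemmaC (hW : HasWMP 𝕜 E (Linf 𝕜)) (g : ℕ → E →L[𝕜] 𝕜) (hg : ∀ n, ‖g n‖ = 1)
    (hg0 : ∀ x, Tendsto (fun n => g n x) atTop (𝓝 0)) :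
    ∃ x : ℕ → E, (∀ n, ‖x n‖ = 1) ∧ (∀ n : ℕ, 1 - 1 / ((n : ℝ) + 1) < RCLike.re (g n (x n))) ∧
      WeaklyNull 𝕜 x := by
  choose x hx1 hx2 hx3 using fun n : ℕ =>
    exists_almost (hg n) (ε := 1 / ((n : ℝ) + 1)) (by positivity)
  have hle : ∀ n, ‖g n (x n)‖ ≤ 1 := fun n => by
    have := (g n).le_opNorm (x n)
    rwa [hg n, hx1 n, one_mul] at this
  have hlim := seq_tendsto_one hx3 hle
  refine ⟨x, hx1, fun n => ?_, ?_⟩
  · rw [hx2 n, RCLike.ofReal_re]; exact hx3 n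
  · by_contra hnull
    obtain ⟨z, hz1, hz2⟩ := lemmaA hW g (fun n => (hg n).le) x hx1 hlim hnull
    have h1 := (hg0 z).norm
    rw [norm_zero] at h1
    have hev : ∀ᶠ n in atTop, ‖g n z‖ < 1 / 2 := h1.eventually (gt_mem_nhds (by norm_num))
    obtain ⟨n, hn1, hn2⟩ := ((hz2 (1 / 2) (by norm_num)).and_eventually hev).exists
    linarith

end Pool.Agent.U461.WMP
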